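import Pool.Agent.Lib.MP_496a9e_al.Q.Defs

/-!
# Coordinates: the analytic data of the group used in the proof
-/

namespace Pool.Agent.RG

open MeasureTheory Topology Filter Set
open scoped SchwartzMap

universe u v

/-- `ℝ^d` with the Euclidean norm. -/
abbrev Ed (d : ℕ) : Type := EuclideanSpace ℝ (Fin d)

/-- the `i`-th basis vector -/
noncomputable def eb {d : ℕ} (i : Fin d) : Ed d := EuclideanSpace.single i (1 : ℝ)

/-- The data of the group in coordinates: the exponential map `ex`, the adjoint representation `ad`,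
the function `M g = max(|φ g|, |φ g⁻¹|)`, the bracket `br`, the compact group `K`, the indices `kI` of
the basis vectors in the Lie algebra of `K`, and the coefficients `t k` of the invariants
`z_k = ∑ t k β X_{β 1} ... X_{β k}`. -/
structure Core (G : Type u) (d : ℕ) where
  ex : Ed d → G
  ad : G → Ed d →L[ℝ] Ed d
  M : G → ℝ
  br : Ed d →L[ℝ] Ed d →L[ℝ] Ed d
  K : Set G
  kI : Finset (Fin d)
  t : (k : ℕ) → (Fin k → Fin d) → ℝ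

/-- the polynomial `∑ t k β ξ_{β 1} ... ξ_{β k}` -/
noncomputable def Core.pol {G : Type u} {d : ℕ} (c : Core G d) (k : ℕ) (ξ : Ed d) : ℝ :=
  ∑ β : Fin k → Fin d, c.t k β * ∏ l, ξ (β l)

/-- `Θ(Y) = ∫_0^1 Ad(exp(-sY)) ds`, the derivative of the exponential map -/
noncomputable def Core.Th {G : Type u} {d : ℕ} (c : Core G d) (Y : Ed d) : Ed d →L[ℝ] Ed d :=
  ∫ s in (0:ℝ)..1, c.ad (c.ex (-s • Y))

structure IsCore {G : Type u} [Group G] [TopologicalSpace G] {d : ℕ} (c : Core G d) : Prop where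
  ex_add : ∀ (Y : Ed d) (s t : ℝ), c.ex ((s + t) • Y) = c.ex (s • Y) * c.ex (t • Y)
  ex_cont : Continuous c.ex
  ex_open : ∀ U ∈ 𝓝 (0 : Ed d), c.ex '' U ∈ 𝓝 (1 : G)
  conj : ∀ (x : G) (Y : Ed d), c.ex (c.ad x Y) = x * c.ex Y * x⁻¹
  ad_one : c.ad 1 = ContinuousLinearMap.id ℝ (Ed d)
  ad_mul : ∀ x y : G, c.ad (x * y) = (c.ad x).comp (c.ad y)
  ad_cont : Continuous c.ad
  ad_ex : ContDiff ℝ 2 fun Y => c.ad (c.ex Y)
  ad_M : ∀ x : G, ‖c.ad x‖ ≤ c.M x ^ 2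
  M_one : c.M 1 = 1
  M_mul : ∀ x y : G, c.M (x * y) ≤ c.M x * c.M y
  M_inv : ∀ x : G, c.M x⁻¹ = c.M x
  M_ge : ∀ x : G, 1 ≤ c.M x
  M_cont : Continuous c.M
  M_ex : ∀ Y : Ed d, c.M (c.ex Y) ≤ Real.exp ‖Y‖
  M_K : ∀ k ∈ c.K, c.M k = 1
  K_one : (1 : G) ∈ c.K
  K_mul : ∀ k ∈ c.K, ∀ l ∈ c.K, k * l ∈ c.K
  K_inv : ∀ k ∈ c.K, k⁻¹ ∈ c.K
  K_compact : IsCompact c.K
  K_ex : ∀ i ∈ c.kI, ∀ t : ℝ, c.ex (t • eb i) ∈ c.K
  K_ex' : ∀ Y : Ed d, (∀ i ∉ c.kI, Y i = 0) → c.ex Y ∈ c.K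
  K_open : ∀ U ∈ 𝓝 (0 : Ed d), ∃ W ∈ 𝓝 (1 : G), ∀ k ∈ c.K, k ∈ W →
    ∃ Y ∈ U, (∀ i ∉ c.kI, Y i = 0) ∧ c.ex Y = k
  cartan : ∃ a : ℝ, 0 < a ∧ ∀ x : G, ∃ k ∈ c.K, ∃ Y : Ed d,
    x = k * c.ex Y ∧ Real.exp (a * ‖Y‖) ≤ c.M x
  inj : ∃ r : ℝ, 0 < r ∧ InjOn c.ex (Metric.ball 0 r)
  loc : ∃ (r : ℝ) (m : Ed d × Ed d → Ed d), 0 < r ∧ ContDiffAt ℝ 1 m (0, 0) ∧ m (0, 0) = 0 ∧
    ∀ z Y : Ed d, ‖z‖ < r → ‖Y‖ < r → c.ex (m (z, Y)) = c.ex z * c.ex Y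
  t2 : ∀ β : Fin 2 → Fin d, c.t 2 β = if β 0 = β 1 then (if β 0 ∈ c.kI then -1 else 1) else 0
  geo : ∀ ξ : Ed d, (∀ k, 1 ≤ k → c.pol k ξ = 0) → ∀ ρ : ℝ, 0 < ρ →
    ∃ x : G, ‖ContinuousLinearMap.adjoint (c.ad x) ξ‖ < ρ

section

variable {d : ℕ} {V : Type v} [AddCommGroup V] [Module ℂ V]

/-- The operator `X_{β 1} X_{β 2} ... X_{β k}` of a word `β`. -/
noncomputable def wd (L : Ed d →ₗ[ℝ] (V →ₗ[ℂ] V)) : List (Fin d) → (V →ₗ[ℂ] V)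
  | [] => LinearMap.id
  | i :: β => (L (eb i)).comp (wd L β)

/-- `Δ = -∑ X_i²` -/
noncomputable def lapl (L : Ed d →ₗ[ℝ] (V →ₗ[ℂ] V)) : V →ₗ[ℂ] V :=
  -∑ i, (L (eb i)).comp (L (eb i))

/-- `C = -∑ X_i²`, the sum over the basis of the Lie algebra of `K` -/
noncomputable def casK {G : Type u} (c : Core G d) (L : Ed d →ₗ[ℝ] (V →ₗ[ℂ] V)) : V →ₗ[ℂ] V :=
  -∑ i ∈ c.kI, (L (eb i)).comp (L (eb i))

/-- `z_k = ∑ t k β X_{β 1} ... X_{β k}` -/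
noncomputable def zk {G : Type u} (c : Core G d) (L : Ed d →ₗ[ℝ] (V →ₗ[ℂ] V)) (k : ℕ) :
    V →ₗ[ℂ] V :=
  ∑ β : Fin k → Fin d, ((c.t k β : ℝ) : ℂ) • wd L (List.ofFn β)

/-- The sum of the eigenspaces of `T` for the real eigenvalues `c ≤ R²`. -/
noncomputable def Vle (T : V →ₗ[ℂ] V) (R : ℝ) : Submodule ℂ V :=
  ⨆ (c : ℝ) (_ : c ≤ R ^ 2), Module.End.eigenspace T (c : ℂ)

/-- The sum of the eigenspaces of `T` for the real eigenvalues `c > R²`. -/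
noncomputable def Vgt (T : V →ₗ[ℂ] V) (R : ℝ) : Submodule ℂ V :=
  ⨆ (c : ℝ) (_ : R ^ 2 < c), Module.End.eigenspace T (c : ℂ)

end

/-- `V` is a module over the Lie algebra and over `K`, the two actions are compatible, the
operators `z_k` commute with both, `V` is the sum of the eigenspaces of `C` for eigenvalues `≥ 0`,
and these are finite dimensional in the strong sense. -/
structure IsMd {G : Type u} [Group G] {d : ℕ} (c : Core G d) {V : Type v} [AddCommGroup V]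
    [Module ℂ V] (L : Ed d →ₗ[ℝ] (V →ₗ[ℂ] V)) (act : G → V →ₗ[ℂ] V) : Prop where
  brk : ∀ (X Y : Ed d) (v : V), L (c.br X Y) v = L X (L Y v) - L Y (L X v)
  act_one : ∀ v : V, act 1 v = v
  act_mul : ∀ k ∈ c.K, ∀ l ∈ c.K, ∀ v : V, act (k * l) v = act k (act l v)
  compat : ∀ k ∈ c.K, ∀ (Y : Ed d) (v : V), act k (L Y v) = L (c.ad k Y) (act k v)
  zL : ∀ (k : ℕ) (Y : Ed d) (v : V), zk c L k (L Y v) = L Y (zk c L k v)
  zK : ∀ (k : ℕ), ∀ l ∈ c.K, ∀ v : V, zk c L k (act l v) = act l (zk c L k v)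
  cK : ∀ k ∈ c.K, ∀ v : V, casK c L (act k v) = act k (casK c L v)
  nonneg : ∀ (r : ℝ) (v : V), casK c L v = (r : ℂ) • v → v ≠ 0 → 0 ≤ r
  top : ⨆ r : ℝ, Module.End.eigenspace (casK c L) (r : ℂ) = ⊤
  fin : ∀ R : ℝ, FiniteDimensional ℂ (Vle (casK c L) R)

/-- The representation of `K` on `V` is locally finite and continuous, with derivative `L`. -/
structure IsKm {G : Type u} [Group G] [TopologicalSpace G] {d : ℕ} (c : Core G d) {V : Type v}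
    [AddCommGroup V] [Module ℂ V] (L : Ed d →ₗ[ℝ] (V →ₗ[ℂ] V)) (act : G → V →ₗ[ℂ] V) : Prop where
  act_one : ∀ v : V, act 1 v = v
  act_mul : ∀ k ∈ c.K, ∀ l ∈ c.K, ∀ v : V, act (k * l) v = act k (act l v)
  fin : ∀ v : V, FiniteDimensional ℂ (Submodule.span ℂ ((fun k => act k v) '' c.K))
  cont : ∀ (v : V) (f : V →ₗ[ℂ] ℂ), ContinuousOn (fun k => f (act k v)) c.K
  diff : ∀ Y : Ed d, (∀ i ∉ c.kI, Y i = 0) → ∀ (v : V) (f : V →ₗ[ℂ] ℂ),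
    HasDerivAt (fun t : ℝ => f (act (c.ex (t • Y)) v)) (f (L Y v)) 0

/-- `π` is a continuous representation with at most polynomial growth in `M`. -/
structure IsRp {G : Type u} [Group G] [TopologicalSpace G] {d : ℕ} (c : Core G d) {E : Type v}
    [NormedAddCommGroup E] [NormedSpace ℂ E] (A₁ : ℕ) (π : G → E →L[ℂ] E) : Prop where
  one : ∀ e : E, π 1 e = e
  mul : ∀ (x y : G) (e : E), π (x * y) e = π x (π y e)
  cont : Continuous fun z : G × E => π z.1 z.2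
  bound : ∃ B : ℝ, ∀ (x : G) (e : E), ‖π x e‖ ≤ B * c.M x ^ A₁ * ‖e‖

/-- `ι` is smooth and equivariant for the Lie algebra: `d/dt π(exp tY) ι v = ι (Y v)` at `t = 0`. -/
def IsDer {G : Type u} {d : ℕ} (c : Core G d) {V E : Type v} [AddCommGroup V]
    [Module ℂ V] [NormedAddCommGroup E] [NormedSpace ℂ E] (π : G → E →L[ℂ] E)
    (L : Ed d →ₗ[ℝ] (V →ₗ[ℂ] V)) (ι : V →ₗ[ℂ] E) : Prop :=
  ∀ (Y : Ed d) (v : V), HasDerivAt (fun t : ℝ => π (c.ex (t • Y)) (ι v)) (ι (L Y v)) 0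

/-- `J` is tempered: `‖J π(x) e‖ ≤ M(x)^A ‖J e‖`. -/
def IsTp {G : Type u} {d : ℕ} (c : Core G d) {E : Type v} {H : Type u}
    [NormedAddCommGroup E] [NormedSpace ℂ E] [NormedAddCommGroup H] [InnerProductSpace ℂ H]
    (A : ℕ) (π : G → E →L[ℂ] E) (J : E →L[ℂ] H) : Prop :=
  ∀ (x : G) (e : E), ‖J (π x e)‖ ≤ c.M x ^ A * ‖J e‖

/-- A globalization of the module: an injective equivariant map with dense range to a Banach
representation. -/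
structure IsGl {G : Type u} [Group G] [TopologicalSpace G] {d : ℕ} (c : Core G d) (A₁ : ℕ)
    {V E : Type v} [AddCommGroup V] [Module ℂ V] [NormedAddCommGroup E] [NormedSpace ℂ E]
    (L : Ed d →ₗ[ℝ] (V →ₗ[ℂ] V)) (act : G → V →ₗ[ℂ] V) (π : G → E →L[ℂ] E) (ι : V →ₗ[ℂ] E) :
    Prop where
  rp : IsRp c A₁ π
  der : IsDer c π L ι
  inj : Function.Injective ι
  dense : DenseRange ι
  eqv : ∀ k ∈ c.K, ∀ v : V, ι (act k v) = π k (ι v)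

/-- A separating bounded family of tempered maps. -/
structure IsFam {G : Type u} {d : ℕ} (c : Core G d) (A : ℕ) {V E I : Type v} {H : Type u}
    [AddCommGroup V] [Module ℂ V] [NormedAddCommGroup E] [NormedSpace ℂ E]
    [NormedAddCommGroup H] [InnerProductSpace ℂ H] (π : G → E →L[ℂ] E) (ι : V →ₗ[ℂ] E)
    (J : I → E →L[ℂ] H) : Prop where
  tp : ∀ i, IsTp c A π (J i)
  bd : ∃ B : ℝ, ∀ (i : I) (e : E), ‖J i e‖ ≤ B * ‖e‖
  sep : ∀ v : V, (∀ i, J i (ι v) = 0) → v = 0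

/-- The projections of the Banach space to `Vle R`. -/
structure IsPV {G : Type u} {d : ℕ} (c : Core G d) {V E : Type v} [AddCommGroup V] [Module ℂ V]
    [NormedAddCommGroup E] [NormedSpace ℂ E] (L : Ed d →ₗ[ℝ] (V →ₗ[ℂ] V)) (ι : V →ₗ[ℂ] E)
    (PV : ℝ → E →ₗ[ℂ] V) : Prop where
  mem : ∀ (R : ℝ) (e : E), PV R e ∈ Vle (casK c L) R
  id : ∀ (R : ℝ) (v : V), v ∈ Vle (casK c L) R → PV R (ι v) = v
  ker : ∀ (R : ℝ) (v : V), v ∈ Vgt (casK c L) R → PV R (ι v) = 0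
  cont : ∀ R : ℝ, Continuous fun e => ι (PV R e)

/-- A module with a smooth equivariant map to a Banach representation and a tempered map of the
latter to a Hilbert space (bundled, so that the constants in the estimates can be quantified before
the representation). -/
structure Cal {G : Type u} [Group G] [TopologicalSpace G] {d : ℕ} (c : Core G d) (A : ℕ) where
  V : Type v
  E : Type v
  H : Type u
  [iV : AddCommGroup V]
  [mV : Module ℂ V]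
  [iE : NormedAddCommGroup E]
  [sE : NormedSpace ℂ E]
  [cE : CompleteSpace E]
  [iH : NormedAddCommGroup H]
  [pH : InnerProductSpace ℂ H]
  [cH : CompleteSpace H]
  π : G → E →L[ℂ] E
  L : Ed d →ₗ[ℝ] (V →ₗ[ℂ] V)
  ι : V →ₗ[ℂ] E
  J : E →L[ℂ] H
  one : ∀ e : E, π 1 e = e
  mul : ∀ (x y : G) (e : E), π (x * y) e = π x (π y e)
  cont : Continuous fun z : G × E => π z.1 z.2
  der : IsDer c π L ι
  temp : IsTp c A π J

attribute [instance] Cal.iV Cal.mV Cal.iE Cal.sE Cal.cE Cal.iH Cal.pH Cal.cH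

/-- The cutoff function and the coordinates of the left invariant vector fields. -/
structure IsCut {G : Type u} {d : ℕ} (c : Core G d) (χ : Ed d → ℝ)
    (κ : Fin d → Fin d → Ed d → ℝ) : Prop where
  χ_smooth : ContDiff ℝ 2 χ
  χ_supp : ∀ Y, 1 ≤ ‖Y‖ → χ Y = 0
  χ_one : ∃ r : ℝ, 0 < r ∧ ∀ Y, ‖Y‖ ≤ r → χ Y = 1
  χ_nonneg : ∀ Y, 0 ≤ χ Y
  χ_le : ∀ Y, χ Y ≤ 1
  κ_smooth : ∀ i j, ContDiff ℝ 1 (κ i j)
  κ_supp : ∀ i j Y, 1 ≤ ‖Y‖ → κ i j Y = 0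
  κ_eq : ∀ i Y, ∑ j, κ i j Y • c.Th Y (eb j) = χ Y • eb i
  κ_lip : ∃ C : ℝ, ∀ i j Y, |κ i j Y - (if i = j then χ Y else 0)| ≤ C * ‖Y‖

/-- `∫ χ(Y/n) h(Y) π(exp(Y/n)) e dY` -/
noncomputable def Op {G : Type u} {d : ℕ} (c : Core G d) {E : Type v} [NormedAddCommGroup E]
    [NormedSpace ℂ E] (χ : Ed d → ℝ) (π : G → E →L[ℂ] E) (n : ℝ) (h : Ed d → ℂ) (e : E) : E :=
  ∫ Y : Ed d, (((χ (n⁻¹ • Y) : ℝ) : ℂ) * h Y) • π (c.ex (n⁻¹ • Y)) e

end Pool.Agent.RG
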