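import Pool.Agent.Lib.MP_496a9e_al.Q.Core

/-!
# D3a: Nelson's argument, one step
-/

namespace Pool.Agent.RG

open MeasureTheory Topology Filter Set

universe u v

/-- the constant of the bracket: `2 Σ |(br e_j e_i)_m|` -/
noncomputable def Core.cb {G : Type u} {d : ℕ} (c : Core G d) : ℝ :=
  2 * ∑ i : Fin d, ∑ j : Fin d, ∑ m : Fin d, |(c.br (eb j) (eb i)) m|

/-- The energy inequality for a seminorm `Q` on a module. -/
def IsEn {d : ℕ} {V : Type v} [AddCommGroup V] [Module ℂ V] (L : Ed d →ₗ[ℝ] (V →ₗ[ℂ] V))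
    (C₁ : ℝ) (Q : Seminorm ℂ V) : Prop :=
  ∀ (v : V) (i : Fin d) (ε : ℝ), 0 < ε → ε ≤ 1 →
    Q (L (eb i) v) ≤ C₁ * (ε⁻¹ * Q v + ε * Q (lapl L v))

variable {G : Type u} {d : ℕ} {c : Core G d} {V : Type v} [AddCommGroup V] [Module ℂ V]
  {L : Ed d →ₗ[ℝ] (V →ₗ[ℂ] V)}

/-- PROOF. Induction on `β`. -/
theorem wd_append (L : Ed d →ₗ[ℝ] (V →ₗ[ℂ] V)) (β γ : List (Fin d)) :
    wd L (β ++ γ) = (wd L β).comp (wd L γ) := by
  induction β with
  | nil => simp [wd]
  | cons i β ih => simp [wd, ih, LinearMap.comp_assoc]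

private theorem D3a_eb (Y : Ed d) : Y = ∑ m : Fin d, Y m • eb m := by
  ext j
  simp only [eb, WithLp.ofLp_sum, Finset.sum_apply]
  simp

private theorem D3a_L (Y : Ed d) (v : V) :
    L Y v = ∑ m : Fin d, ((Y m : ℝ) : ℂ) • L (eb m) v := by
  conv_lhs => rw [D3a_eb Y]
  rw [map_sum, LinearMap.sum_apply]
  refine Finset.sum_congr rfl fun m _ => ?_
  rw [map_smul]
  rfl

private theorem D3a_smul (Q : Seminorm ℂ V) (a : ℝ) (v : V) : Q ((a : ℂ) • v) = |a| * Q v := by
  rw [map_smul_eq_mul, Complex.norm_real, Real.norm_eq_abs]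

private theorem D3a_comm (hbr : ∀ (X Y : Ed d) (v : V), L (c.br X Y) v = L X (L Y v) - L Y (L X v))
    (i : Fin d) (w : V) :
    lapl L (L (eb i) w) - L (eb i) (lapl L w) =
      -∑ j : Fin d, ∑ m : Fin d, (((c.br (eb j) (eb i)) m : ℝ) : ℂ) •
        (L (eb j) (L (eb m) w) + L (eb m) (L (eb j) w)) := by
  have h1 : ∀ j : Fin d, ∑ m : Fin d, (((c.br (eb j) (eb i)) m : ℝ) : ℂ) •
        (L (eb j) (L (eb m) w) + L (eb m) (L (eb j) w)) =
      L (eb j) (L (c.br (eb j) (eb i)) w) + L (c.br (eb j) (eb i)) (L (eb j) w) := by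
    intro j
    rw [D3a_L (c.br (eb j) (eb i)) w, D3a_L (c.br (eb j) (eb i)) (L (eb j) w), map_sum,
      ← Finset.sum_add_distrib]
    refine Finset.sum_congr rfl fun m _ => ?_
    rw [map_smul, smul_add]
  rw [Finset.sum_congr rfl fun j _ => h1 j]
  have h2 : ∀ x : V, lapl L x = -∑ j : Fin d, L (eb j) (L (eb j) x) := by
    intro x
    simp [lapl]
  rw [h2, h2, map_neg, map_sum, sub_neg_eq_add, neg_add_eq_sub, ← Finset.sum_sub_distrib,
    ← Finset.sum_neg_distrib]
  refine Finset.sum_congr rfl fun j _ => ?_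
  rw [hbr, hbr, map_sub]
  abel

private theorem D3a_gen (hbr : ∀ (X Y : Ed d) (v : V), L (c.br X Y) v = L X (L Y v) - L Y (L X v))
    (Q : Seminorm ℂ V) (v : V) (ρ : ℝ) (h0 : 0 ≤ ρ) (β : List (Fin d)) :
    ∀ α : List (Fin d),
      (∀ γ : List (Fin d), γ.length = α.length + β.length + 1 → Q (wd L γ v) ≤ ρ) →
      Q (wd L α (lapl L (wd L β v) - wd L β (lapl L v))) ≤ β.length * c.cb * ρ := by
  induction β with
  | nil =>
    intro α _
    simp [wd]
  | cons i β ih =>
    intro α hρ
    have hih := ih (α ++ [i]) (by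
      intro γ hγ
      refine hρ γ ?_
      rw [hγ]
      simp only [List.length_append, List.length_cons, List.length_nil]
      omega)
    set w := wd L β v with hw
    have hsplit : wd L α (lapl L (wd L (i :: β) v) - wd L (i :: β) (lapl L v)) =
        wd L α (lapl L (L (eb i) w) - L (eb i) (lapl L w)) +
          wd L (α ++ [i]) (lapl L w - wd L β (lapl L v)) := by
      rw [wd_append]
      simp only [wd, LinearMap.comp_apply, LinearMap.id_apply, map_sub]
      abel
    have hfirst : Q (wd L α (lapl L (L (eb i) w) - L (eb i) (lapl L w))) ≤ c.cb * ρ := by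
      rw [D3a_comm hbr, map_neg, map_neg_eq_map, map_sum]
      have hword : ∀ j m : Fin d, Q (wd L α (L (eb j) (L (eb m) w))) ≤ ρ := by
        intro j m
        have h1 : wd L α (L (eb j) (L (eb m) w)) = wd L (α ++ (j :: m :: β)) v := by
          rw [wd_append]
          rfl
        rw [h1]
        refine hρ _ ?_
        simp only [List.length_append, List.length_cons]
        omega
      have h2 : ∀ j : Fin d, Q (wd L α (∑ m : Fin d, (((c.br (eb j) (eb i)) m : ℝ) : ℂ) •
          (L (eb j) (L (eb m) w) + L (eb m) (L (eb j) w)))) ≤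
          ∑ m : Fin d, |(c.br (eb j) (eb i)) m| * (2 * ρ) := by
        intro j
        rw [map_sum]
        refine (Finset.le_sum_of_subadditive Q (map_zero Q).le (map_add_le_add Q) _ _).trans
          (Finset.sum_le_sum fun m _ => ?_)
        rw [map_smul, D3a_smul, map_add]
        refine mul_le_mul_of_nonneg_left ?_ (abs_nonneg _)
        exact (map_add_le_add Q _ _).trans (by linarith [hword j m, hword m j])
      refine (Finset.le_sum_of_subadditive Q (map_zero Q).le (map_add_le_add Q) _ _).trans ?_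
      refine (Finset.sum_le_sum fun j _ => h2 j).trans ?_
      have h3 : ∑ j : Fin d, ∑ m : Fin d, |(c.br (eb j) (eb i)) m| * (2 * ρ) =
          2 * (∑ j : Fin d, ∑ m : Fin d, |(c.br (eb j) (eb i)) m|) * ρ := by
        rw [Finset.mul_sum, Finset.sum_mul]
        refine Finset.sum_congr rfl fun j _ => ?_
        rw [Finset.mul_sum, Finset.sum_mul]
        refine Finset.sum_congr rfl fun m _ => ?_
        ring
      rw [h3]
      refine mul_le_mul_of_nonneg_right ?_ h0
      unfold Core.cb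
      refine mul_le_mul_of_nonneg_left ?_ (by norm_num)
      exact Finset.single_le_sum (f := fun i : Fin d => ∑ j : Fin d, ∑ m : Fin d,
        |(c.br (eb j) (eb i)) m|) (fun _ _ => Finset.sum_nonneg fun _ _ =>
          Finset.sum_nonneg fun _ _ => abs_nonneg _) (Finset.mem_univ i)
    rw [hsplit]
    refine (map_add_le_add Q _ _).trans ?_
    have h4 : (((i :: β).length : ℕ) : ℝ) * c.cb * ρ = c.cb * ρ + β.length * c.cb * ρ := by
      rw [List.length_cons]
      push_cast
      ring
    rw [h4]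
    exact add_le_add hfirst hih

/-- The commutator of `Δ` and a word of length `k` is bounded by `k * cb * ρ`, where `ρ` bounds `Q` on
all words of length `k + 1`.
PROOF. Induction on `β` (length `k`), for all `v`, and for all `ρ` and all prefixes: prove the more general statement
`∀ α, (∀ γ, γ.length = α.length + β.length + 1 → Q (wd L γ v) ≤ ρ) →
 Q (wd L α (lapl L (wd L β v) - wd L β (lapl L v))) ≤ β.length * c.cb * ρ`.
For `β = i :: β'`: `lapl (X_i w) - X_i (wd β' (lapl v)) = (lapl (X_i w) - X_i (lapl w)) + X_i (lapl w - wd β' (lapl v))`, `w = wd β' v`; the second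
term is treated by the induction hypothesis with `α ++ [i]` (`wd_append`). The first: `lapl X_i w - X_i lapl w = -Σ_j (X_j X_j X_i - X_i X_j X_j) w =
-Σ_j (X_j [X_j, X_i] + [X_j, X_i] X_j) w`, and `[X_j, X_i] = L (br e_j e_i) = Σ_m (br e_j e_i)_m X_m` (`hbr`, linearity of `L`; every `Y : Ed d` is
`Σ Y m • eb m`). Applying `wd L α`, each term is a real multiple `(br e_j e_i)_m` of a word of length `α.length + β.length + 1` applied to `v`, so `Q` of the
first part is at most `Σ_j Σ_m 2 |(br e_j e_i)_m| ρ ≤ cb * ρ` (`ρ ≥ 0` since `Q ≥ 0` and a word exists, or `d = 0`, trivial). -/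
theorem comm_le (hbr : ∀ (X Y : Ed d) (v : V), L (c.br X Y) v = L X (L Y v) - L Y (L X v))
    (Q : Seminorm ℂ V) (β : List (Fin d)) (v : V) (ρ : ℝ) (h0 : 0 ≤ ρ)
    (hρ : ∀ γ : List (Fin d), γ.length = β.length + 1 → Q (wd L γ v) ≤ ρ) :
    Q (lapl L (wd L β v) - wd L β (lapl L v)) ≤ β.length * c.cb * ρ := by
  have h := D3a_gen hbr Q v ρ h0 β [] (by
    intro γ hγ
    refine hρ γ ?_
    rw [hγ]
    simp)
  exact h

end Pool.Agent.RG
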