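import Pool.Agent.Lib.MP_496a9e_al.Q.Core

/-!
# E0: elementary facts on the exponential map in coordinates
-/

namespace Pool.Agent.RG

open MeasureTheory Topology Filter Set

universe u v

variable {G : Type u} [Group G] [TopologicalSpace G] {d : ℕ} {c : Core G d} {A : ℕ}

/-- PROOF. `ex_add` with `s = t = 0`: `ex 0 = ex 0 * ex 0`. -/
theorem IsCore.ex_zero (hc : IsCore c) : c.ex 0 = 1 := by
  have h := hc.ex_add 0 0 0
  simp only [add_zero, zero_smul] at h
  exact (mul_eq_left.mp h.symm)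

/-- PROOF. `ex_add Y 1 (-1)` and `ex_zero`. -/
theorem IsCore.ex_neg (hc : IsCore c) (Y : Ed d) : c.ex (-Y) = (c.ex Y)⁻¹ := by
  have h := hc.ex_add Y 1 (-1)
  rw [add_neg_cancel, zero_smul, hc.ex_zero, one_smul, neg_one_smul] at h
  exact (inv_eq_of_mul_eq_one_right h.symm).symm

/-- PROOF. `ad x (ad x⁻¹ Y) = ad 1 Y = Y`. -/
theorem IsCore.ad_inv (hc : IsCore c) (x : G) (Y : Ed d) :
    c.ad x⁻¹ (c.ad x Y) = Y ∧ c.ad x (c.ad x⁻¹ Y) = Y := by
  constructor
  · have h := hc.ad_mul x⁻¹ x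
    rw [inv_mul_cancel, hc.ad_one] at h
    have h2 := congrArg (fun f : Ed d →L[ℝ] Ed d => f Y) h
    exact h2.symm
  · have h := hc.ad_mul x x⁻¹
    rw [mul_inv_cancel, hc.ad_one] at h
    have h2 := congrArg (fun f : Ed d →L[ℝ] Ed d => f Y) h
    exact h2.symm

/-- `ad (ex (t Y)) Y = Y`.
PROOF. Let `x = ex (t • Y)`. For every real `s`, `ex (ad x (s • Y)) = x * ex (s • Y) * x⁻¹ = ex (s • Y)` (`conj`; the elements `ex (t • Y)`, `ex (s • Y)` commute by `ex_add`). For small `s > 0` both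
`s • ad x Y` and `s • Y` lie in the ball of `hc.inj`, so they are equal. -/
theorem IsCore.ad_ex_self (hc : IsCore c) (Y : Ed d) (t : ℝ) : c.ad (c.ex (t • Y)) Y = Y := by
  obtain ⟨r, hr, hinj⟩ := hc.inj
  set x := c.ex (t • Y) with hx
  have hcomm : ∀ s : ℝ, c.ex (c.ad x (s • Y)) = c.ex (s • Y) := by
    intro s
    rw [hc.conj, hx, ← hc.ex_add, add_comm, hc.ex_add, mul_inv_cancel_right]
  -- a small `s > 0`
  set R := ‖c.ad x Y‖ + ‖Y‖ + 1 with hR
  have hRpos : 0 < R := by positivity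
  set s := r / (2 * R) with hs
  have hspos : 0 < s := by positivity
  have hsR : s * R = r / 2 := by
    rw [hs]; field_simp
  have h1 : s • c.ad x Y ∈ Metric.ball (0 : Ed d) r := by
    rw [mem_ball_zero_iff, norm_smul, Real.norm_of_nonneg hspos.le]
    have : s * ‖c.ad x Y‖ ≤ s * R := by
      apply mul_le_mul_of_nonneg_left _ hspos.le
      rw [hR]; linarith [norm_nonneg Y]
    linarith
  have h2 : s • Y ∈ Metric.ball (0 : Ed d) r := by
    rw [mem_ball_zero_iff, norm_smul, Real.norm_of_nonneg hspos.le]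
    have : s * ‖Y‖ ≤ s * R := by
      apply mul_le_mul_of_nonneg_left _ hspos.le
      rw [hR]; linarith [norm_nonneg (c.ad x Y)]
    linarith
  have h3 : c.ex (s • c.ad x Y) = c.ex (s • Y) := by
    rw [← map_smul]; exact hcomm s
  have h4 := hinj h1 h2 h3
  exact smul_right_injective _ hspos.ne' h4

/-- Derivative of the orbit map along a one-parameter group, at any time and after translation.
PROOF. `π (x * ex ((t + s) • Y)) (ι v) = π (x * ex (t • Y)) (π (ex (s • Y)) (ι v))`; compose `R.der Y v` with the continuous linear map `π (x * ex (t • Y))` and shift the variable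
(`HasDerivAt.scomp`/`HasDerivAt.comp_add_const`: `fun s => g (s - t)` etc.). -/
theorem Cal.der_at (hc : IsCore c) (R : Cal.{u, v} c A) (x : G) (Y : Ed d) (v : R.V) (t : ℝ) :
    HasDerivAt (fun s : ℝ => R.π (x * c.ex (s • Y)) (R.ι v))
      (R.π (x * c.ex (t • Y)) (R.ι (R.L Y v))) t := by
  have h := R.der Y v
  have h0 : HasDerivAt (fun s : ℝ => R.π (c.ex (s • Y)) (R.ι v)) (R.ι (R.L Y v)) (t - t) := by
    rw [sub_self]; exact h
  have h1 : HasDerivAt (fun s : ℝ => R.π (c.ex ((s - t) • Y)) (R.ι v)) (R.ι (R.L Y v)) t :=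
    h0.comp_sub_const t t
  have h2 : HasDerivAt (fun s : ℝ => (R.π (x * c.ex (t • Y)))
      (R.π (c.ex ((s - t) • Y)) (R.ι v))) (R.π (x * c.ex (t • Y)) (R.ι (R.L Y v))) t :=
    ((R.π (x * c.ex (t • Y))).restrictScalars ℝ).hasFDerivAt.comp_hasDerivAt t h1
  convert h2 using 2 with s
  rw [← R.mul, mul_assoc, ← hc.ex_add]
  congr 4
  abel_nf

/-- Derivative on the left.
PROOF. `π (ex (s • Y)) (π x (ι v)) = π (x * ex (s • ad x⁻¹ Y)) (ι v)`, because `ex (s • Y) * x = x * (x⁻¹ * ex (s • Y) * x) = x * ex (ad x⁻¹ (s • Y))` (`conj`). Use `der_at` at `0`. -/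
theorem Cal.der_left (hc : IsCore c) (R : Cal.{u, v} c A) (x : G) (Y : Ed d) (v : R.V) :
    HasDerivAt (fun s : ℝ => R.π (c.ex (s • Y)) (R.π x (R.ι v)))
      (R.π x (R.ι (R.L (c.ad x⁻¹ Y) v))) 0 := by
  have h := R.der_at hc x (c.ad x⁻¹ Y) v 0
  rw [zero_smul, hc.ex_zero, mul_one] at h
  convert h using 2 with s
  rw [← R.mul]
  congr 2
  have h1 := hc.conj x⁻¹ (s • Y)
  rw [map_smul] at h1
  rw [h1]
  group

/-- The twisted data: `ι_x = π x ∘ ι`, `L_x Y = L (ad x⁻¹ Y)`.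
PROOF. `der_left`. -/
theorem Cal.twist (hc : IsCore c) (R : Cal.{u, v} c A) (x : G) :
    IsDer c R.π (R.L.comp (c.ad x⁻¹).toLinearMap) ((R.π x).toLinearMap.comp R.ι) := by
  intro Y v
  exact R.der_left hc x Y v

/-- The twisted data, bundled. -/
noncomputable def Cal.tw (hc : IsCore c) (R : Cal.{u, v} c A) (x : G) : Cal.{u, v} c A where
  V := R.V
  E := R.E
  H := R.H
  π := R.π
  L := R.L.comp (c.ad x⁻¹).toLinearMap
  ι := (R.π x).toLinearMap.comp R.ι
  J := R.J
  one := R.one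
  mul := R.mul
  cont := R.cont
  der := R.twist hc x
  temp := R.temp

end Pool.Agent.RG
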