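import Pool.Agent.Lib.MP_496a9e_al.Mg.G012
import Pool.Agent.Lib.MP_496a9e_al.Mg.G008
import Pool.Agent.Lib.MP_496a9e_al.Mg.G013
import Pool.Agent.Lib.MP_496a9e_al.Mg.G014

/-!
# H1b: one step: `V_{≤ n}` is generated from `V_{≤ n/2}`
-/

namespace Pool.Agent.RG

open MeasureTheory Topology Filter Set
open scoped SchwartzMap LineDeriv FourierTransform

universe u v

variable {G : Type u} [Group G] [TopologicalSpace G] {d : ℕ} {c : Core G d}

section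

variable {A A₁ : ℕ} {V E I : Type v} {H : Type u} [AddCommGroup V] [Module ℂ V]
  [NormedAddCommGroup E] [NormedSpace ℂ E] [CompleteSpace E] [NormedAddCommGroup H]
  [InnerProductSpace ℂ H] [CompleteSpace H] {L : Ed d →ₗ[ℝ] (V →ₗ[ℂ] V)}
  {act : G → V →ₗ[ℂ] V} {π : G → E →L[ℂ] E} {ι : V →ₗ[ℂ] E} {PV : ℝ → E →ₗ[ℂ] V}
  {J : I → E →L[ℂ] H} {Q : Seminorm ℂ E} {Cz : ℕ → ℝ}
  {χ : Ed d → ℝ} {κ : Fin d → Fin d → Ed d → ℝ}

/-- The bundled data. -/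
@[reducible] private noncomputable def H1b_cal (hS : IsStep c A A₁ L act π ι PV J Q Cz) (i : I) :
    Cal.{u, v} c A where
  V := V
  E := E
  H := H
  π := π
  L := L
  ι := ι
  J := J i
  one := hS.gl.rp.one
  mul := hS.gl.rp.mul
  cont := hS.gl.rp.cont
  der := hS.gl.der
  temp := hS.tp i

private theorem H1b_le (hS : IsStep c A A₁ L act π ι PV J Q Cz) (i : I) (e : E) :
    ‖J i e‖ ≤ Q e := hS.sup.le i e

private theorem H1b_sup (hS : IsStep c A A₁ L act π ι PV J Q Cz) {e : E} {r : ℝ} (hr : 0 ≤ r)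
    (h : ∀ i, ‖J i e‖ ≤ r) : Q e ≤ r := hS.sup.sup e r hr h

private theorem H1b_pi (hc : IsCore c) (hS : IsStep c A A₁ L act π ι PV J Q Cz) (x : G) (e : E) :
    Q (π x e) ≤ c.M x ^ A * Q e := by
  have h0 : 0 ≤ c.M x ^ A := pow_nonneg (zero_le_one.trans (hc.M_ge x)) A
  exact H1b_sup hS (mul_nonneg h0 (apply_nonneg Q e)) fun i =>
    (hS.tp i x e).trans (mul_le_mul_of_nonneg_left (H1b_le hS i e) h0)

private theorem H1b_PV (hc : IsCore c) (hS : IsStep c A A₁ L act π ι PV J Q Cz) (R : ℝ) (e : E) :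
    Q (ι (PV R e)) ≤ Q e :=
  H1b_sup hS (apply_nonneg Q e) fun i =>
    (PV_contr hc hS.md hS.gl hS.pv (hS.tp i) R e).trans (H1b_le hS i e)

private theorem H1b_Op (hc : IsCore c) (hχ : IsCut c χ κ)
    (hS : IsStep c A A₁ L act π ι PV J Q Cz) {n : ℝ} (hn : 1 ≤ n) (h : 𝓢(Ed d, ℂ)) (e : E) :
    Q (Op c χ π n h e) ≤ Real.exp A * (∫ Y, ‖h Y‖) * Q e := by
  have h0 : 0 ≤ Real.exp A * ∫ Y, ‖h Y‖ :=
    mul_nonneg (Real.exp_pos _).le (integral_nonneg fun Y => norm_nonneg _)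
  exact H1b_sup hS (mul_nonneg h0 (apply_nonneg Q e)) fun i =>
    (Op_norm hc hχ (H1b_cal hS i) hn h.continuous h.integrable e).trans
      (mul_le_mul_of_nonneg_left (H1b_le hS i e) h0)

private theorem H1b_en (hc : IsCore c) (hS : IsStep c A A₁ L act π ι PV J Q Cz) :
    IsEn L (4 * A * d + 1) (Q.comp ι) := by
  intro v i ε h0 h1
  have hC : (0 : ℝ) ≤ 4 * A * d + 1 := by positivity
  have hε : 0 ≤ ε⁻¹ := (inv_pos.2 h0).le
  refine H1b_sup hS (mul_nonneg hC (add_nonneg (mul_nonneg hε (apply_nonneg _ _))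
    (mul_nonneg h0.le (apply_nonneg _ _)))) fun j => ?_
  refine (energy hc (H1b_cal hS j) i v ε h0 h1).trans ?_
  refine mul_le_mul_of_nonneg_left (add_le_add ?_ ?_) hC
  · exact mul_le_mul_of_nonneg_left (H1b_le hS j _) hε
  · exact mul_le_mul_of_nonneg_left (H1b_le hS j _) h0.le

private theorem H1b_cas (hc : IsCore c) (hS : IsStep c A A₁ L act π ι PV J Q Cz) (n : ℝ) (v : V)
    (hv : v ∈ Vle (casK c L) n) : (Q.comp ι) (casK c L v) ≤ n ^ 2 * (Q.comp ι) v := by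
  refine H1b_sup hS (mul_nonneg (sq_nonneg n) (apply_nonneg _ _)) fun j => ?_
  refine (Ksk.casK_le hS.md.nonneg (Cal.ksk hc (H1b_cal hS j)) hv).trans ?_
  exact mul_le_mul_of_nonneg_left (H1b_le hS j _) (sq_nonneg n)

private theorem H1b_sumQ {S : Type} (s : Finset S) (f : S → E) :
    Q (∑ i ∈ s, f i) ≤ ∑ i ∈ s, Q (f i) := by
  classical
  induction s using Finset.induction_on with
  | empty => simp
  | insert a s ha ih =>
    rw [Finset.sum_insert ha, Finset.sum_insert ha]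
    exact (map_add_le_add Q _ _).trans (add_le_add_right ih _)

/-- Part (e): the tail. -/
private theorem H1b_e (hc : IsCore c)
    (hS : IsStep c A A₁ L act π ι PV J Q Cz) {n : ℝ} (hn : 1 ≤ n) (l : ℕ) (g : 𝓢(Ed d, ℂ)) (x : G)
    {Ct M ν : ℝ} (hCt : 0 ≤ Ct) (hM : 0 ≤ M) (hν : ∫ Y, ‖(KD c l g) Y‖ ≤ (1 / 8) ^ l * ν)
    (hν0 : 0 ≤ ν) (u : V)
    (hT : ∀ (J' : E →L[ℂ] H), IsTp c A π J' → (∀ γ : List (Fin d), γ.length ≤ 2 * l →
      ‖J' (ι (wd L γ u))‖ ≤ n ^ γ.length * (M * Q (ι u))) →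
      (n / 2) ^ (2 * l) * ‖J' (Op c χ π n g (π x (ι u)) -
        ι (PV (n / 2) (Op c χ π n g (π x (ι u)))))‖ ≤
        n ^ (2 * l) * (Real.exp A * (∫ Y, ‖(KD c l g) Y‖) * c.M x ^ A * ‖J' (ι u)‖ +
          Ct / n * (M * Q (ι u))))
    (hw : ∀ γ : List (Fin d), γ.length ≤ 2 * l →
      Q (ι (wd L γ u)) ≤ M * n ^ γ.length * Q (ι u)) :
    Q (Op c χ π n g (π x (ι u)) - ι (PV (n / 2) (Op c χ π n g (π x (ι u))))) ≤
      (Real.exp A * (1 / 2) ^ l * ν * c.M x ^ A + 4 ^ l * Ct * M / n) * Q (ι u) := by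
  have hn0 : 0 < n := lt_of_lt_of_le zero_lt_one hn
  have hMx : 0 ≤ c.M x ^ A := pow_nonneg (zero_le_one.trans (hc.M_ge x)) A
  have hQ : 0 ≤ Q (ι u) := apply_nonneg _ _
  have hexp : 0 ≤ Real.exp (A : ℝ) := (Real.exp_pos _).le
  refine H1b_sup hS (mul_nonneg (add_nonneg (by positivity) (by positivity)) hQ) fun i => ?_
  have h1 := hT (J i) (hS.tp i) fun γ hγ => by
    refine (H1b_le hS i _).trans ((hw γ hγ).trans (le_of_eq ?_))
    ring
  set y := Op c χ π n g (π x (ι u)) with hy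
  have h2 : n ^ (2 * l) * ‖J i (y - ι (PV (n / 2) y))‖ =
      4 ^ l * ((n / 2) ^ (2 * l) * ‖J i (y - ι (PV (n / 2) y))‖) := by
    have : (n / 2) ^ (2 * l) = n ^ (2 * l) / 4 ^ l := by
      rw [div_pow, pow_mul (2 : ℝ) 2 l]
      norm_num
    rw [this]
    have h4 : (4 : ℝ) ^ l ≠ 0 := by positivity
    field_simp
  have h3 : Real.exp A * (∫ Y, ‖(KD c l g) Y‖) * c.M x ^ A * ‖J i (ι u)‖ ≤
      Real.exp A * ((1 / 8) ^ l * ν) * c.M x ^ A * Q (ι u) := by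
    have h31 : Real.exp A * (∫ Y, ‖(KD c l g) Y‖) * c.M x ^ A ≤
        Real.exp A * ((1 / 8) ^ l * ν) * c.M x ^ A :=
      mul_le_mul_of_nonneg_right (mul_le_mul_of_nonneg_left hν hexp) hMx
    exact mul_le_mul h31 (H1b_le hS i _) (norm_nonneg _) (by positivity)
  have h5 : n ^ (2 * l) * ‖J i (y - ι (PV (n / 2) y))‖ ≤
      n ^ (2 * l) * ((Real.exp A * (1 / 2) ^ l * ν * c.M x ^ A + 4 ^ l * Ct * M / n) * Q (ι u)) := by
    rw [h2]
    refine (mul_le_mul_of_nonneg_left h1 (by positivity)).trans ?_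
    have h6 : 4 ^ l * (n ^ (2 * l) * (Real.exp A * (∫ Y, ‖(KD c l g) Y‖) * c.M x ^ A *
        ‖J i (ι u)‖ + Ct / n * (M * Q (ι u)))) ≤ 4 ^ l * (n ^ (2 * l) *
        (Real.exp A * ((1 / 8) ^ l * ν) * c.M x ^ A * Q (ι u) + Ct / n * (M * Q (ι u)))) := by
      refine mul_le_mul_of_nonneg_left (mul_le_mul_of_nonneg_left ?_ (by positivity)) (by positivity)
      linarith
    refine h6.trans (le_of_eq ?_)
    have h7 : (1 / 2 : ℝ) ^ l = 4 ^ l * (1 / 8) ^ l := by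
      rw [← mul_pow]
      norm_num
    rw [h7]
    ring
  exact le_of_mul_le_mul_left h5 (by positivity)

end

private theorem H1b_adj (hc : IsCore c) (x : G) (ξ : Ed d) :
    ContinuousLinearMap.adjoint (c.ad x) (ContinuousLinearMap.adjoint (c.ad x⁻¹) ξ) = ξ := by
  have h1 : (c.ad x⁻¹).comp (c.ad x) = ContinuousLinearMap.id ℝ (Ed d) := by
    rw [← hc.ad_mul, inv_mul_cancel, hc.ad_one]
  have h2 := ContinuousLinearMap.adjoint_comp (c.ad x⁻¹) (c.ad x)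
  rw [h1] at h2
  have h3 := congrArg (fun T : Ed d →L[ℝ] Ed d => T ξ) h2
  simp only [ContinuousLinearMap.comp_apply] at h3
  rw [← h3]
  refine ext_inner_left ℝ fun w => ?_
  rw [ContinuousLinearMap.adjoint_inner_right]
  rfl

/-- ONE STEP.
PROOF. Let `χ, κ` be from `exists_cut hc`. Let `C₁ = 4 A d + 1`. Let `M₁` be the constant of `scaled_bound hc C₁ 1`. By `exists_kernel` choose `b` with `∫ ‖Y‖ ‖b‖ ≤ ε₁`, `exp(A) d ε₁ M₁' ≤ 1/16`, `M₁' = max M₁ 1`. Let `c₀` be from `bernstein d`; choose `ρ > 0` with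
`4 #kI (c₀ ρ)^2 ≤ 1/2`. `exists_decomp` for `b, ρ` gives `p, q, k, h, x, g`. For each `j` let `g' j` be the conjugate kernel of `Op_conj` for `g j` and `x j`; `𝓕 (g' j)` vanishes for `‖ξ‖ ≥ ρ` (if `ξ = adjoint(ad x_j) η`, `η = adjoint(ad x_j⁻¹) ξ`, then
`𝓕 (g' j) ξ = 𝓕 (g j) η = 0`). Choose `l` with `Σ_j exp(A) 2^(-l) (∫ ‖g' j‖) M(x_j)^(2A) ≤ 1/16`. Let `M` be the constant of `scaled_bound` for words of length `≤ K := 2 + 2 l + Σ_a k a`.
`C₂ = Σ_j exp(A) (∫ ‖g' j‖) M(x_j)^(2A)`. Now let the representation be given; `Q` restricted to `V` satisfies `IsEn L C₁` (`energy` for each `J i`), `Q (ι casK v) ≤ n^2 Q (ι v)` on `Vle n` (`Ksk.casK_le`, `Cal.ksk`), so for `n ≥ n₁` (`n₁ ≥ 1`, `n₁^2 ≥ Cz 2`) the words are bounded: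
`Q (ι wd β u) ≤ M n^|β| Q (ι u)`. Then: (a) `Q (ι u - Op b (ι u)) ≤ (1/16 + C/n) Q (ι u)` (`Op_ident` for every `J i`, `T = M₁' Q (ι u)`; `Q x ≤ r` if all `‖J i x‖ ≤ r`). (b) `Op b = Σ_a Op (PD (k a) (h a)) + Σ_j Op (g j)` (`Op_add`, `Op_sum`). (c) `off_cone`.
(d) `Q (Op (g j) (ι u) - π x_j y_j) ≤ C/n Q (ι u)`, `y_j = Op (g' j) (π x_j⁻¹ (ι u))` (`Op_conj`). (e) `u'_j = PV (n/2) y_j ∈ Vle (n/2)`; `Op_tail` with `m = n/2`, `x = x_j⁻¹`:
`(n/2)^(2l) Q (y_j - ι u'_j) ≤ n^(2l) (exp(A) ∫ ‖KD l (g' j)‖ M(x_j)^A + C M/n) Q (ι u)`, and `∫ ‖KD l (g' j)‖ ≤ (#kI (c₀ρ)^2)^l ∫ ‖g' j‖` (`KD_l1`), so `Q (y_j - ι u'_j) ≤ (exp(A) 2^(-l) ∫ ‖g' j‖ M(x_j)^A + 4^l C M/n) Q (ι u)`; `Q (π x_j e) ≤ M(x_j)^A Q e` (`tp`).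
(f) `PV n (ι u) = u`, and `Q (ι (PV n e)) ≤ Q e` (`PV_contr`), so `Q (ι (u - PV n (Σ π x_j ι u'_j))) ≤ Q (ι u - Σ π x_j ι u'_j) ≤` the sum of the errors `≤ (1/16 + 1/16 + C'/n) Q (ι u) ≤ (1/4) Q (ι u)` for `n ≥ n₁` (`C'` depends on the `Cz`).
(g) `Q (ι u'_j) ≤ Q y_j ≤ exp(A) ∫ ‖g' j‖ M(x_j)^A Q (ι u)`. -/
theorem one_step (hc : IsCore c) (A A₁ : ℕ) :
    ∃ C₂ : ℝ, 0 ≤ C₂ ∧ ∀ (V E I : Type v) (H : Type u) [AddCommGroup V] [Module ℂ V]
      [NormedAddCommGroup E] [NormedSpace ℂ E] [CompleteSpace E] [NormedAddCommGroup H]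
      [InnerProductSpace ℂ H] [CompleteSpace H] (L : Ed d →ₗ[ℝ] (V →ₗ[ℂ] V))
      (act : G → V →ₗ[ℂ] V) (π : G → E →L[ℂ] E) (ι : V →ₗ[ℂ] E) (PV : ℝ → E →ₗ[ℂ] V)
      (J : I → E →L[ℂ] H) (Q : Seminorm ℂ E) (Cz : ℕ → ℝ),
      IsStep c A A₁ L act π ι PV J Q Cz →
      ∃ n₁ : ℝ, ∀ n : ℝ, n₁ ≤ n → ∀ u ∈ Vle (casK c L) n,
        ∃ (q : ℕ) (x : Fin q → G) (w : Fin q → V), (∀ j, w j ∈ Vle (casK c L) (n / 2)) ∧
          (∑ j, c.M (x j) ^ A * Q (ι (w j)) ≤ C₂ * Q (ι u)) ∧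
          Q (ι (u - PV n (∑ j, π (x j) (ι (w j))))) ≤ 1 / 4 * Q (ι u) := by
  classical
  obtain ⟨χ, κ, hχ⟩ := exists_cut hc
  have hC₁ : (0 : ℝ) ≤ 4 * A * d + 1 := by positivity
  obtain ⟨M₁, hM₁0, hM₁⟩ := scaled_bound.{u, v} hc hC₁ 1
  -- the kernel
  have hexp : 0 < Real.exp (A : ℝ) := Real.exp_pos _
  obtain ⟨b, hb1, hbε, hbs⟩ := exists_kernel d (1 / (16 * (Real.exp A * (d + 1) * (M₁ + 1))))
    (by positivity)
  obtain ⟨c₀, hc₀, hB⟩ := bernstein d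
  -- the radius
  set kK : ℝ := (c.kI.card : ℝ) with hkK
  have hkK0 : 0 ≤ kK := Nat.cast_nonneg _
  set ρ : ℝ := 1 / (4 * (c₀ + 1) * (kK + 1)) with hρdef
  have hρ : 0 < ρ := by positivity
  have hρ8 : kK * (c₀ * ρ) ^ 2 ≤ 1 / 8 := by
    have h1 : c₀ * ρ ≤ 1 / (4 * (kK + 1)) := by
      rw [hρdef, mul_one_div, div_le_div_iff₀ (by positivity) (by positivity)]
      nlinarith [mul_nonneg hc₀ hkK0]
    have h2 : (c₀ * ρ) ^ 2 ≤ (1 / (4 * (kK + 1))) ^ 2 :=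
      pow_le_pow_left₀ (by positivity) h1 2
    calc kK * (c₀ * ρ) ^ 2 ≤ kK * (1 / (4 * (kK + 1))) ^ 2 :=
          mul_le_mul_of_nonneg_left h2 hkK0
      _ = kK / (16 * (kK + 1) ^ 2) := by
          rw [div_pow, one_pow, mul_one_div]
          congr 1
          ring
      _ ≤ 1 / 8 := by
          rw [div_le_div_iff₀ (by positivity) (by norm_num)]
          nlinarith
  obtain ⟨p, q, k, h, x, g, hk, hbd, hg⟩ := exists_decomp hc b hbs ρ hρ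
  choose g' hg' Cc hCc0 hCc using fun j => Op_conj.{u, v} hc hχ A (g j) (x j)
  have hsupp : ∀ j ξ, ρ < ‖ξ‖ → (𝓕 (g' j)) ξ = 0 := by
    intro j ξ hξ
    rw [hg' j ξ]
    refine hg j _ ?_
    rw [H1b_adj hc (x j) ξ]
    exact hξ.le
  have hMx : ∀ y : G, 0 ≤ c.M y := fun y => zero_le_one.trans (hc.M_ge y)
  have hI : ∀ f : 𝓢(Ed d, ℂ), 0 ≤ ∫ Y, ‖f Y‖ := fun f => integral_nonneg fun Y => norm_nonneg _
  -- the constant `C₂`
  set C₂ : ℝ := ∑ j, Real.exp A * (∫ Y, ‖(g' j) Y‖) * (c.M (x j) ^ A * c.M (x j) ^ A) with hC₂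
  have hC₂0 : 0 ≤ C₂ := Finset.sum_nonneg fun j _ => mul_nonneg (mul_nonneg hexp.le (hI _))
    (mul_nonneg (pow_nonneg (hMx _) A) (pow_nonneg (hMx _) A))
  obtain ⟨l, hl⟩ := pow_unbounded_of_one_lt (16 * C₂) (one_lt_two : (1 : ℝ) < 2)
  have hl2 : (1 / 2 : ℝ) ^ l * C₂ ≤ 1 / 16 := by
    rw [one_div, inv_pow, inv_mul_le_iff₀ (by positivity)]
    linarith
  obtain ⟨M, hM0, hM⟩ := scaled_bound.{u, v} hc hC₁ (2 + 2 * l + ∑ a, k a)
  choose Co hCo0 hCo using fun a => off_cone.{u, v} hc hχ A A₁ (k a) (hk a) (h a)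
  obtain ⟨Ci, hCi0, hCi⟩ := Op_ident.{u, v} hc hχ A b hb1
  choose Ct hCt0 hCt using fun j => Op_tail.{u, v} (A₁ := A₁) hc hχ A l (g' j) (x j)⁻¹
  refine ⟨C₂, hC₂0, ?_⟩
  intro V E I H _ _ _ _ _ _ _ _ L act π ι PV J Q Cz hS
  -- the constant of the error terms
  set C' : ℝ := Ci * (M₁ + 1) + ∑ a, Co a * (|Cz (k a)| + M) + ∑ j, Cc j +
    ∑ j, c.M (x j) ^ A * (4 ^ l * Ct j * M) with hC'
  refine ⟨max 1 (max (|Cz 2| + 1) (8 * C')), ?_⟩
  intro n hn u hu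
  have hn1 : 1 ≤ n := (le_max_left _ _).trans hn
  have hn2 : |Cz 2| + 1 ≤ n := ((le_max_left _ _).trans (le_max_right _ _)).trans hn
  have hn3 : 8 * C' ≤ n := ((le_max_right _ _).trans (le_max_right _ _)).trans hn
  have hn0 : 0 < n := lt_of_lt_of_le zero_lt_one hn1
  have hCz : Cz 2 ≤ n ^ 2 := by
    have h1 : Cz 2 ≤ |Cz 2| := le_abs_self _
    nlinarith
  have hQ : 0 ≤ Q (ι u) := apply_nonneg _ _
  have hw1 : ∀ β : List (Fin d), β.length ≤ 1 →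
      Q (ι (wd L β u)) ≤ M₁ * n ^ β.length * Q (ι u) := fun β hβ =>
    hM₁ V L act hS.md (Q.comp ι) (H1b_en hc hS) (H1b_cas hc hS) (Cz 2) (hS.zQ 2) n hn1 hCz u hu β hβ
  have hw : ∀ β : List (Fin d), β.length ≤ 2 + 2 * l + ∑ a, k a →
      Q (ι (wd L β u)) ≤ M * n ^ β.length * Q (ι u) := fun β hβ =>
    hM V L act hS.md (Q.comp ι) (H1b_en hc hS) (H1b_cas hc hS) (Cz 2) (hS.zQ 2) n hn1 hCz u hu β hβ
  have hcont := hS.gl.rp.cont
  -- (a)
  have ha : Q (ι u - Op c χ π n b (ι u)) ≤ (1 / 16 + Ci * (M₁ + 1) / n) * Q (ι u) := by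
    refine H1b_sup hS (mul_nonneg (by positivity) hQ) fun i => ?_
    have h1 := hCi (H1b_cal hS i) n hn1 u ((M₁ + 1) * Q (ι u))
      ((H1b_le hS i _).trans (by nlinarith))
      (fun j => by
        refine (H1b_le hS i _).trans ((hw1 [j] le_rfl).trans ?_)
        simp only [List.length_singleton, pow_one]
        nlinarith [mul_nonneg hn0.le hQ])
    refine h1.trans ?_
    have h2 : Real.exp A * d * ∫ Y, ‖Y‖ * ‖b Y‖ ≤ Real.exp A * (d + 1) *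
        (1 / (16 * (Real.exp A * (d + 1) * (M₁ + 1)))) := by
      refine mul_le_mul ?_ hbε (integral_nonneg fun Y => by positivity) (by positivity)
      exact mul_le_mul_of_nonneg_left (by linarith) hexp.le
    have h3 : Real.exp A * (d + 1) * (1 / (16 * (Real.exp A * (d + 1) * (M₁ + 1)))) *
        (M₁ + 1) = 1 / 16 := by
      have h4 : (d : ℝ) + 1 ≠ 0 := by positivity
      have h5 : M₁ + 1 ≠ 0 := by positivity
      have h6 := hexp.ne'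
      field_simp
    have h7 : (Real.exp A * d * ∫ Y, ‖Y‖ * ‖b Y‖) * ((M₁ + 1) * Q (ι u)) ≤
        1 / 16 * Q (ι u) := by
      rw [← h3]
      have h8 : 0 ≤ (M₁ + 1) * Q (ι u) := mul_nonneg (by positivity) hQ
      refine (mul_le_mul_of_nonneg_right h2 h8).trans (le_of_eq ?_)
      ring
    have h9 : Ci / n * ((M₁ + 1) * Q (ι u)) = Ci * (M₁ + 1) / n * Q (ι u) := by ring
    rw [h9]
    linarith
  -- (b)
  have hbOp : Op c χ π n b (ι u) = (∑ a, Op c χ π n (PD c (k a) (h a)) (ι u)) +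
      ∑ j, Op c χ π n (g j) (ι u) := by
    have h1 : (b : Ed d → ℂ) = fun Y => (∑ a, (PD c (k a) (h a)) Y) + ∑ j, (g j) Y := by
      funext Y
      conv_lhs => rw [hbd]
      rw [add_apply]
      congr 1
      · rw [sum_apply]
      · rw [sum_apply]
    rw [h1, Op_add hc hχ hcont hn1
      (continuous_finsetSum _ fun a _ => (PD c (k a) (h a)).continuous)
      (continuous_finsetSum _ fun j _ => (g j).continuous),
      Op_sum hc hχ hcont hn1 Finset.univ (fun a => (PD c (k a) (h a)).continuous),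
      Op_sum hc hχ hcont hn1 Finset.univ (fun j => (g j).continuous)]
  -- (c)
  have hcc : ∀ a, Q (Op c χ π n (PD c (k a) (h a)) (ι u)) ≤
      (Co a * (|Cz (k a)| + M) / n) * Q (ι u) := fun a =>
    hCo a V E I H L act π ι PV J Q Cz hS n hn1 u M hM0 fun β hβ => hw β (hβ.trans (by
      have h1 := Finset.single_le_sum (f := k) (fun i _ => Nat.zero_le _) (Finset.mem_univ a)
      omega))
  -- (d)
  set y : Fin q → E := fun j => Op c χ π n (g' j) (π (x j)⁻¹ (ι u)) with hy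
  have hd : ∀ j, Q (Op c χ π n (g j) (ι u) - π (x j) (y j)) ≤ Cc j / n * Q (ι u) := fun j => by
    have h0 : 0 ≤ Cc j / n := div_nonneg (hCc0 j) hn0.le
    exact H1b_sup hS (mul_nonneg h0 hQ) fun i =>
      (hCc j (H1b_cal hS i) n hn1 (ι u)).trans (mul_le_mul_of_nonneg_left (H1b_le hS i _) h0)
  -- (e)
  set w : Fin q → V := fun j => PV (n / 2) (y j) with hwdef
  have he : ∀ j, Q (y j - ι (w j)) ≤ (Real.exp A * (1 / 2) ^ l * (∫ Y, ‖(g' j) Y‖) *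
      c.M (x j) ^ A + 4 ^ l * Ct j * M / n) * Q (ι u) := fun j => by
    have h1 := H1b_e hc hS hn1 l (g' j) (x j)⁻¹ (hCt0 j) hM0 (ν := ∫ Y, ‖(g' j) Y‖)
      ((KD_l1 c hc₀ hρ (hB ρ hρ) l (g' j) (hsupp j)).trans
        (mul_le_mul_of_nonneg_right (pow_le_pow_left₀ (by positivity) hρ8 l) (hI _)))
      (hI _) u
      (fun J' hJ' hγ => hCt j V E H L act π ι PV J' hS.md hS.gl hS.pv hJ' n (n / 2) hn1
        (by positivity) u (M * Q (ι u)) hγ)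
      (fun γ hγ => hw γ (by omega))
    rw [hc.M_inv] at h1
    exact h1
  refine ⟨q, x, w, fun j => hS.pv.mem _ _, ?_, ?_⟩
  · -- (g)
    rw [hC₂, Finset.sum_mul]
    refine Finset.sum_le_sum fun j _ => ?_
    have h1 : Q (ι (w j)) ≤ Real.exp A * (∫ Y, ‖(g' j) Y‖) * (c.M (x j) ^ A * Q (ι u)) := by
      refine (H1b_PV hc hS _ _).trans ((H1b_Op hc hχ hS hn1 _ _).trans ?_)
      refine mul_le_mul_of_nonneg_left ?_ (mul_nonneg hexp.le (hI _))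
      have h2 := H1b_pi hc hS (x j)⁻¹ (ι u)
      rw [hc.M_inv] at h2
      exact h2
    refine (mul_le_mul_of_nonneg_left h1 (pow_nonneg (hMx _) A)).trans (le_of_eq ?_)
    ring
  · -- (f)
    have h1 : ι (u - PV n (∑ j, π (x j) (ι (w j)))) =
        ι (PV n (ι u - ∑ j, π (x j) (ι (w j)))) := by
      rw [map_sub (PV n), hS.pv.id n u hu]
    rw [h1]
    refine (H1b_PV hc hS n _).trans ?_
    have h2 : ι u - ∑ j, π (x j) (ι (w j)) = (ι u - Op c χ π n b (ι u)) +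
        (∑ a, Op c χ π n (PD c (k a) (h a)) (ι u)) +
        (∑ j, (Op c χ π n (g j) (ι u) - π (x j) (y j))) +
        ∑ j, π (x j) (y j - ι (w j)) := by
      rw [hbOp, Finset.sum_sub_distrib]
      have h3 : ∀ j, π (x j) (y j - ι (w j)) = π (x j) (y j) - π (x j) (ι (w j)) :=
        fun j => map_sub _ _ _
      rw [Finset.sum_congr rfl fun j _ => h3 j, Finset.sum_sub_distrib]
      abel
    rw [h2]
    have h3 : Q (∑ a, Op c χ π n (PD c (k a) (h a)) (ι u)) ≤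
        ∑ a, (Co a * (|Cz (k a)| + M) / n) * Q (ι u) :=
      (H1b_sumQ _ _).trans (Finset.sum_le_sum fun a _ => hcc a)
    have h4 : Q (∑ j, (Op c χ π n (g j) (ι u) - π (x j) (y j))) ≤
        ∑ j, Cc j / n * Q (ι u) :=
      (H1b_sumQ _ _).trans (Finset.sum_le_sum fun j _ => hd j)
    have h5 : Q (∑ j, π (x j) (y j - ι (w j))) ≤
        ∑ j, c.M (x j) ^ A * ((Real.exp A * (1 / 2) ^ l * (∫ Y, ‖(g' j) Y‖) *
          c.M (x j) ^ A + 4 ^ l * Ct j * M / n) * Q (ι u)) :=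
      (H1b_sumQ _ _).trans (Finset.sum_le_sum fun j _ => (H1b_pi hc hS _ _).trans
        (mul_le_mul_of_nonneg_left (he j) (pow_nonneg (hMx _) A)))
    have h6 : Q ((ι u - Op c χ π n b (ι u)) +
        (∑ a, Op c χ π n (PD c (k a) (h a)) (ι u)) +
        (∑ j, (Op c χ π n (g j) (ι u) - π (x j) (y j))) +
        ∑ j, π (x j) (y j - ι (w j))) ≤
        (1 / 16 + Ci * (M₁ + 1) / n) * Q (ι u) +
        (∑ a, (Co a * (|Cz (k a)| + M) / n) * Q (ι u)) + (∑ j, Cc j / n * Q (ι u)) +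
        ∑ j, c.M (x j) ^ A * ((Real.exp A * (1 / 2) ^ l * (∫ Y, ‖(g' j) Y‖) *
          c.M (x j) ^ A + 4 ^ l * Ct j * M / n) * Q (ι u)) := by
      refine (map_add_le_add Q _ _).trans (add_le_add ?_ h5)
      refine (map_add_le_add Q _ _).trans (add_le_add ?_ h4)
      exact (map_add_le_add Q _ _).trans (add_le_add ha h3)
    refine h6.trans ?_
    have h7 : (1 / 16 + Ci * (M₁ + 1) / n) * Q (ι u) +
        (∑ a, (Co a * (|Cz (k a)| + M) / n) * Q (ι u)) + (∑ j, Cc j / n * Q (ι u)) +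
        ∑ j, c.M (x j) ^ A * ((Real.exp A * (1 / 2) ^ l * (∫ Y, ‖(g' j) Y‖) *
          c.M (x j) ^ A + 4 ^ l * Ct j * M / n) * Q (ι u)) =
        (1 / 16 + (1 / 2) ^ l * C₂ + C' / n) * Q (ι u) := by
      have e1 : (∑ a, (Co a * (|Cz (k a)| + M) / n) * Q (ι u)) =
          (∑ a, Co a * (|Cz (k a)| + M)) / n * Q (ι u) := by
        rw [Finset.sum_div, Finset.sum_mul]
      have e2 : (∑ j, Cc j / n * Q (ι u)) = (∑ j, Cc j) / n * Q (ι u) := by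
        rw [Finset.sum_div, Finset.sum_mul]
      have e3 : ∑ j, c.M (x j) ^ A * ((Real.exp A * (1 / 2) ^ l * (∫ Y, ‖(g' j) Y‖) *
          c.M (x j) ^ A + 4 ^ l * Ct j * M / n) * Q (ι u)) =
          ((1 / 2) ^ l * C₂ + (∑ j, c.M (x j) ^ A * (4 ^ l * Ct j * M)) / n) * Q (ι u) := by
        rw [hC₂, Finset.sum_div, Finset.mul_sum, ← Finset.sum_add_distrib, Finset.sum_mul]
        refine Finset.sum_congr rfl fun j _ => ?_
        ring
      rw [e1, e2, e3, hC']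
      ring
    rw [h7]
    refine mul_le_mul_of_nonneg_right ?_ hQ
    have h8 : C' / n ≤ 1 / 8 := by
      rw [div_le_iff₀ hn0]
      linarith
    linarith

end Pool.Agent.RG
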