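import Pool.Agent.Lib.MP_496a9e_al.Q.Core

/-!
# A0: the coordinates of a real reductive group
-/

namespace Pool.Agent.RG

open Matrix

universe u v

/-- the operator norm of a matrix for the Euclidean norm -/
noncomputable def opn {N : ℕ} (X : Mat N) : ℝ :=
  ‖(Matrix.toEuclideanCLM (n := Fin N) (𝕜 := ℝ) X)‖

/-- the Frobenius norm of a matrix -/
noncomputable def frob {N : ℕ} (X : Mat N) : ℝ := Real.sqrt ((Xᵀ * X).trace)

/-- `Σ Y_i e_i` -/
noncomputable def hat {N d : ℕ} (e : Fin d → Mat N) (Y : Ed d) : Mat N := ∑ i, Y i • e i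

/-- the coordinates `tr(e_jᵀ X)` -/
noncomputable def crd {N d : ℕ} (e : Fin d → Mat N) (X : Mat N) : Ed d :=
  WithLp.toLp 2 fun j => ((e j)ᵀ * X).trace

/-- `M x = max(1, |φ x|, |φ x⁻¹|)` -/
noncomputable def RData.Mf {G : Type u} [Group G] {N : ℕ} (S : RData G N) (x : G) : ℝ :=
  max 1 (max (opn (S.φ x)) (opn (S.φ x⁻¹)))

/-- `b` is an orthonormal basis of the Lie algebra of `K` (the skew-symmetric matrices in the Lie
algebra of `G`) for the inner product `tr(Xᵀ Y)`. -/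
structure IsBasisK {G : Type u} {N : ℕ} (S : RData G N) {D : ℕ} (b : Fin D → Mat N) : Prop where
  mem : ∀ i, b i ∈ S.alg
  skew : ∀ i, (b i)ᵀ = -b i
  orth : ∀ i j, ((b i)ᵀ * b j).trace = if i = j then 1 else 0
  span : ∀ X ∈ S.alg, Xᵀ = -X → X ∈ Submodule.span ℝ (Set.range b)

/-- `e` is an orthonormal basis of the Lie algebra, the `e i` with `i ∈ kI` are skew-symmetric and the
others are symmetric. -/
structure IsAd {G : Type u} {N : ℕ} (S : RData G N) {d : ℕ} (e : Fin d → Mat N)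
    (kI : Finset (Fin d)) : Prop where
  mem : ∀ i, e i ∈ S.alg
  orth : ∀ i j, ((e i)ᵀ * e j).trace = if i = j then 1 else 0
  span : ∀ X ∈ S.alg, X ∈ Submodule.span ℝ (Set.range e)
  skew : ∀ i ∈ kI, (e i)ᵀ = -e i
  symm : ∀ i ∉ kI, (e i)ᵀ = e i

/-- The group in the coordinates given by the basis `e` of the Lie algebra. -/
noncomputable def coreOf {G : Type u} [Group G] {N : ℕ} (S : RData G N) {d : ℕ}
    (e : Fin d → Mat N) (kI : Finset (Fin d)) : Core G d where
  ex Y := S.exp (hat e Y)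
  ad x := ∑ i, (EuclideanSpace.proj i : Ed d →L[ℝ] ℝ).smulRight
    (crd e (S.φ x * e i * S.φ x⁻¹))
  M := S.Mf
  br := ∑ i, ∑ j, (EuclideanSpace.proj i : Ed d →L[ℝ] ℝ).smulRight
    ((EuclideanSpace.proj j : Ed d →L[ℝ] ℝ).smulRight (crd e (e i * e j - e j * e i)))
  K := S.K
  kI := kI
  t _ β := (List.ofFn fun l => (e (β l))ᵀ).prod.trace

/-- the module in coordinates -/
noncomputable def lieOf {G : Type u} {N : ℕ} {V : Type v} [AddCommGroup V] [Module ℂ V]
    (M : GK G N V) {d : ℕ} (e : Fin d → Mat N) : Ed d →ₗ[ℝ] (V →ₗ[ℂ] V) :=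
  ∑ i, (EuclideanSpace.proj i : Ed d →L[ℝ] ℝ).toLinearMap.smulRight (M.lie (e i))

end Pool.Agent.RG
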