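import Mathlib

/-!
# Harish-Chandra modules of real reductive groups, their `G`-continuous norms and the Sobolev gap
-/

namespace Pool.Agent.RG

open Matrix

universe u v

/-- Real `N × N` matrices. -/
abbrev Mat (N : ℕ) : Type := Matrix (Fin N) (Fin N) ℝ

/-- The data of a real reductive group `G`: a matrix representation `φ` (for a finite covering of a
linear group, the covering map), the Lie algebra `alg`, realized by matrices, and the exponential
map `exp`. -/
structure RData (G : Type u) (N : ℕ) where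
  φ : G → Mat N
  alg : Submodule ℝ (Mat N)
  exp : Mat N → G

/-- The maximal compact subgroup: the elements represented by orthogonal matrices. -/
def RData.K {G : Type u} {N : ℕ} (S : RData G N) : Set G := {x | (S.φ x)ᵀ * S.φ x = 1}

/-- `G` is a real reductive group: `φ` is a continuous homomorphism, the Lie algebra is closed under
brackets and transposition, `exp` is the exponential map, `K` is compact, and `G = K exp(𝔭)`, where
`𝔭` is the space of symmetric matrices in the Lie algebra (Cartan decomposition). -/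
structure IsRed {G : Type u} [Group G] [TopologicalSpace G] {N : ℕ} (S : RData G N) : Prop where
  one : S.φ 1 = 1
  mul : ∀ x y, S.φ (x * y) = S.φ x * S.φ y
  cont : Continuous S.φ
  brk : ∀ X ∈ S.alg, ∀ Y ∈ S.alg, X * Y - Y * X ∈ S.alg
  tr : ∀ X ∈ S.alg, Xᵀ ∈ S.alg
  exp_add : ∀ X ∈ S.alg, ∀ s t : ℝ, S.exp ((s + t) • X) = S.exp (s • X) * S.exp (t • X)
  exp_der : ∀ X ∈ S.alg, ∀ i j, HasDerivAt (fun t : ℝ => S.φ (S.exp (t • X)) i j) (X i j) 0
  exp_cont : ContinuousOn S.exp S.alg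
  exp_open : ∀ U ∈ nhds (0 : Mat N), S.exp '' (U ∩ S.alg) ∈ nhds (1 : G)
  ad_mem : ∀ x, ∀ X ∈ S.alg, S.φ x * X * S.φ x⁻¹ ∈ S.alg
  ad_exp : ∀ x, ∀ X ∈ S.alg, S.exp (S.φ x * X * S.φ x⁻¹) = x * S.exp X * x⁻¹
  compact : IsCompact S.K
  cartan : ∀ x : G, ∃ k ∈ S.K, ∃ X ∈ S.alg, Xᵀ = X ∧ x = k * S.exp X

/-- The data of a `(𝔤,K)`-module: `lie X` for `X` in the Lie algebra and `act k` for `k ∈ K`. -/
structure GK (G : Type u) (N : ℕ) (V : Type v) [AddCommGroup V] [Module ℂ V] where
  lie : Mat N → V →ₗ[ℂ] V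
  act : G → V →ₗ[ℂ] V

/-- `(𝔤,K)`-modules: representations of the Lie algebra and of `K`, compatible in the usual sense;
the action of `K` is locally finite and continuous, and its derivative is the action of the Lie
algebra of `K`. -/
structure IsGK {G : Type u} [Group G] [TopologicalSpace G] {N : ℕ} (S : RData G N) {V : Type v}
    [AddCommGroup V] [Module ℂ V] (M : GK G N V) : Prop where
  lie_add : ∀ X ∈ S.alg, ∀ Y ∈ S.alg, M.lie (X + Y) = M.lie X + M.lie Y
  lie_smul : ∀ c : ℝ, ∀ X ∈ S.alg, M.lie (c • X) = (c : ℂ) • M.lie X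
  lie_brk : ∀ X ∈ S.alg, ∀ Y ∈ S.alg, ∀ v : V,
    M.lie (X * Y - Y * X) v = M.lie X (M.lie Y v) - M.lie Y (M.lie X v)
  act_one : ∀ v : V, M.act 1 v = v
  act_mul : ∀ k ∈ S.K, ∀ l ∈ S.K, ∀ v : V, M.act (k * l) v = M.act k (M.act l v)
  compat : ∀ k ∈ S.K, ∀ X ∈ S.alg, ∀ v : V,
    M.act k (M.lie X v) = M.lie (S.φ k * X * S.φ k⁻¹) (M.act k v)
  fin : ∀ v : V, FiniteDimensional ℂ (Submodule.span ℂ ((fun k => M.act k v) '' S.K))
  cont : ∀ (v : V) (f : V →ₗ[ℂ] ℂ), ContinuousOn (fun k => f (M.act k v)) S.K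
  diff : ∀ X ∈ S.alg, Xᵀ = -X → ∀ (v : V) (f : V →ₗ[ℂ] ℂ),
    HasDerivAt (fun t : ℝ => f (M.act (S.exp (t • X)) v)) (f (M.lie X v)) 0

/-- The `K`-maps to `V` from `ℂ^m`, on which `K` acts by the matrices `τ k`. -/
def homK {G : Type u} [Group G] {N : ℕ} (S : RData G N) {V : Type v}
    [AddCommGroup V] [Module ℂ V] (M : GK G N V) (m : ℕ) (τ : G → Matrix (Fin m) (Fin m) ℂ) :
    Submodule ℂ ((Fin m → ℂ) →ₗ[ℂ] V) where
  carrier := {T | ∀ k ∈ S.K, ∀ x, T (τ k *ᵥ x) = M.act k (T x)}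
  add_mem' := by
    intro a b ha hb k hk x
    simp only [Set.mem_ofPred_eq] at ha hb
    rw [LinearMap.add_apply, LinearMap.add_apply, ha k hk, hb k hk, map_add]
  zero_mem' := by intro k _ x; simp
  smul_mem' := by
    intro c a ha k hk x
    simp only [Set.mem_ofPred_eq] at ha
    rw [LinearMap.smul_apply, LinearMap.smul_apply, ha k hk, map_smul]

/-- Harish-Chandra modules: finitely generated over the Lie algebra (no proper invariant subspace
contains a suitable finite set) and admissible (`Hom_K(τ,V)` is finite dimensional for every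
finite dimensional continuous representation `τ` of `K`). -/
structure IsHC {G : Type u} [Group G] [TopologicalSpace G] {N : ℕ} (S : RData G N) {V : Type v}
    [AddCommGroup V] [Module ℂ V] (M : GK G N V) : Prop where
  fg : ∃ s : Finset V, ∀ U : Submodule ℂ V, (∀ v ∈ s, v ∈ U) →
    (∀ X ∈ S.alg, ∀ u ∈ U, M.lie X u ∈ U) → U = ⊤
  adm : ∀ (m : ℕ) (τ : G → Matrix (Fin m) (Fin m) ℂ), ContinuousOn τ S.K → τ 1 = 1 →
    (∀ k ∈ S.K, ∀ l ∈ S.K, τ (k * l) = τ k * τ l) → FiniteDimensional ℂ (homK S M m τ)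

/-- Weights on `G`: positive, submultiplicative, locally bounded functions. -/
structure IsWeight {G : Type u} [Group G] [TopologicalSpace G] (w : G → ℝ) : Prop where
  pos : ∀ g, 0 < w g
  mul : ∀ g h, w (g * h) ≤ w g * w h
  loc : ∀ g, ∃ U ∈ nhds g, ∃ B : ℝ, ∀ h ∈ U, w h ≤ B

/-- `π` is a continuous representation of `G` on the normed space `E` with `‖π(g)‖ ≤ C w(g)`. -/
structure IsNormRep {G : Type u} [Group G] [TopologicalSpace G] {E : Type v}
    [NormedAddCommGroup E] [NormedSpace ℂ E] (π : G → E →L[ℂ] E) (w : G → ℝ) : Prop where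
  one : ∀ x : E, π 1 x = x
  mul : ∀ (g h : G) (x : E), π (g * h) x = π g (π h x)
  cont : Continuous fun x : G × E => π x.1 x.2
  bound : ∃ C : ℝ, ∀ (g : G) (x : E), ‖π g x‖ ≤ C * w g * ‖x‖

/-- The translates of `x` by `K` span a finite dimensional space. -/
def KFinite {G : Type u} {N : ℕ} (S : RData G N) {E : Type v}
    [NormedAddCommGroup E] [NormedSpace ℂ E] (π : G → E →L[ℂ] E) (x : E) : Prop :=
  FiniteDimensional ℂ (Submodule.span ℂ ((fun k => π k x) '' S.K))

/-- `ι` is an injective `(𝔤,K)`-equivariant map from `V` onto the space of `K`-finite vectors, and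
this space is dense. -/
structure IsKFinitePart {G : Type u} {N : ℕ} (S : RData G N) {V : Type v} [AddCommGroup V]
    [Module ℂ V] (M : GK G N V) {E : Type v} [NormedAddCommGroup E] [NormedSpace ℂ E]
    (π : G → E →L[ℂ] E) (ι : V →ₗ[ℂ] E) : Prop where
  inj : Function.Injective ι
  dense : DenseRange ι
  fin : ∀ x : E, (∃ v, ι v = x) ↔ KFinite S π x
  eqv : ∀ k ∈ S.K, ∀ v : V, ι (M.act k v) = π k (ι v)
  der : ∀ X ∈ S.alg, ∀ v : V,
    HasDerivAt (fun t : ℝ => π (S.exp (t • X)) (ι v)) (ι (M.lie X v)) 0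

/-- `p ∈ Norm(V,w)`: `p` is the norm induced on `V` by an embedding of `V` in a Banach space `E`
with a continuous representation `π` of `G`, such that the image is the space of `K`-finite
vectors and dense, the embedding is `(𝔤,K)`-equivariant, and `‖π(g)‖ ≤ C w(g)`. -/
def InNorm {G : Type u} [Group G] [TopologicalSpace G] {N : ℕ} (S : RData G N) {V : Type v}
    [AddCommGroup V] [Module ℂ V] (M : GK G N V) (w : G → ℝ) (p : V → ℝ) : Prop :=
  ∃ (E : Type v) (_ : NormedAddCommGroup E) (_ : NormedSpace ℂ E) (_ : CompleteSpace E)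
    (π : G → E →L[ℂ] E) (ι : V →ₗ[ℂ] E),
    IsNormRep π w ∧ IsKFinitePart S M π ι ∧ ∀ v : V, p v = ‖ι v‖

/-- `b` is a family of vectors spanning the Lie algebra of `K` (the skew-symmetric matrices in the
Lie algebra of `G`), for instance an orthonormal basis for an inner product. -/
structure IsSpanK {G : Type u} {N : ℕ} (S : RData G N) {D : ℕ} (b : Fin D → Mat N) : Prop where
  mem : ∀ i, b i ∈ S.alg
  skew : ∀ i, (b i)ᵀ = -b i
  span : ∀ X ∈ S.alg, Xᵀ = -X → X ∈ Submodule.span ℝ (Set.range b)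

/-- The `K`-Laplacian `Δ_K = -∑ b_i²` (when `b` is an orthonormal basis of the Lie algebra of `K` for
a `K`-invariant inner product). -/
noncomputable def lapK {G : Type u} {N : ℕ} {V : Type v} [AddCommGroup V] [Module ℂ V]
    (M : GK G N V) {D : ℕ} (b : Fin D → Mat N) : V →ₗ[ℂ] V :=
  -∑ i, (M.lie (b i)).comp (M.lie (b i))

/-- `p ≲ q_s` for all `p, q ∈ Norm(V,w)`, where `q_s(v) = q((1 + Δ_K)^(s/2) v)`. The vector `v` is
given by its components in the eigenspaces of `Δ_K`. Applied to the maximal and the minimal class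
this is `p_max ≲ (p_min)_s`, and conversely `p_max ≲ (p_min)_s` implies it for all `p` and `q`. -/
def Dominated {G : Type u} [Group G] [TopologicalSpace G] {N : ℕ} (S : RData G N) {V : Type v}
    [AddCommGroup V] [Module ℂ V] (M : GK G N V) (w : G → ℝ) {D : ℕ} (b : Fin D → Mat N)
    (s : ℝ) : Prop :=
  ∀ p q : V → ℝ, InNorm S M w p → InNorm S M w q → ∃ C : ℝ, ∀ v : ℝ →₀ V,
    (∀ c : ℝ, lapK M b (v c) = (c : ℂ) • v c) →
      p (v.sum fun _ x => x) ≤ C * q (v.sum fun c x => (((1 + c) ^ (s / 2) : ℝ) : ℂ) • x)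

/-- The Sobolev gap `s(V,w) = inf {s ≥ 0 : p_max ≲ (p_min)_s}`, a value in `[0,∞]`. -/
noncomputable def gap {G : Type u} [Group G] [TopologicalSpace G] {N : ℕ} (S : RData G N)
    {V : Type v} [AddCommGroup V] [Module ℂ V] (M : GK G N V) (w : G → ℝ) {D : ℕ}
    (b : Fin D → Mat N) : ENNReal :=
  ⨅ (s : ℝ) (_ : 0 ≤ s ∧ Dominated S M w b s), ENNReal.ofReal s

end Pool.Agent.RG
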