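import Pool.Agent.Lib.MP_496a9e_al.Mg.G004
import Pool.Agent.Lib.MP_496a9e_al.Mg.G009
import Pool.Agent.Lib.MP_496a9e_al.Mg.G010
import Pool.Agent.Lib.MP_496a9e_al.Mg.G001
import Pool.Agent.Lib.MP_496a9e_al.Mg.G015

/-!
# I6: the main theorem, for every Laplace operator of `K`
-/

namespace Pool.Agent.RG

open MeasureTheory Topology Filter Set

universe u v

/-- MAIN THEOREM: the Sobolev gaps of all Harish-Chandra modules of a real reductive group are
bounded, for every weight, uniformly in the choice of the Laplace operator of `K`.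
PROOF. As `main` of file H6b (delivered proof: /team-store/MP_496a9e_SG_H6b.lean, copy it): `exists_basisK S` gives an orthonormal basis `b₀` of the Lie algebra of `K`, `exists_adapted hS.tr hb₀` gives `d, e, σ`; `c = coreOf S e (univ.map σ)`, `hc = isCore_coreOf hS h`.
`weight_le hc hw` gives `A₁`; `borelize G`; `exists_nu hc A₁` gives `A, ν`; `s` from `key_gen hc A A₁` (`H = Lp ℂ 2 ν`). Given `b`: `isSpB_crd h hb`, and `lapB_eq h hM hb` turns `lapK M b` into `lapB (fun i => crd e (b i)) (lieOf M e)`. The rest as in `main`, plus `isKm`. -/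
theorem main_gen {G : Type u} [Group G] [TopologicalSpace G] [IsTopologicalGroup G] [T2Space G]
    {N : ℕ} {S : RData G N} (hS : IsRed S) {w : G → ℝ} (hw : IsWeight w) :
    ∃ s : ℝ, 0 ≤ s ∧ ∀ (D : ℕ) (b : Fin D → Mat N), IsSpanK S b →
      ∀ (V : Type v) [AddCommGroup V] [Module ℂ V] (M : GK G N V),
      IsGK S M → IsHC S M → gap S M w b ≤ ENNReal.ofReal s := by
  classical
  obtain ⟨D₀, b₀, hb₀⟩ := exists_basisK S
  obtain ⟨d, e, σ, hAd, -⟩ := exists_adapted hS.tr hb₀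
  have hc : IsCore (coreOf S e (Finset.univ.map σ)) := isCore_coreOf hS hAd
  obtain ⟨A₁, C', -, hw'⟩ := weight_le hc hw
  letI : MeasurableSpace G := borel G
  haveI : BorelSpace G := ⟨rfl⟩
  obtain ⟨A, ν, -, hν⟩ := exists_nu hc A₁
  obtain ⟨s, hs0, hkey⟩ := key_gen.{u, v} hc A A₁
  refine ⟨s, hs0, ?_⟩
  intro D b hb V _ _ M hM hH
  refine iInf₂_le s ⟨hs0, ?_⟩
  rintro p q ⟨E, _, _, _, π, ι, hπ, hK, hp⟩ ⟨E', _, _, _, π', ι', hπ', hK', hq⟩
  have hG := isGl_of hAd hM hw hw' hπ hK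
  have hG' := isGl_of hAd hM hw hw' hπ' hK'
  obtain ⟨J, hJ⟩ := exists_J hc hν hG.rp
  obtain ⟨J', hJ'⟩ := exists_J hc hν hG'.rp
  have hfg : ∃ s : Finset V, ∀ U : Submodule ℂ V, (∀ v ∈ s, v ∈ U) →
      (∀ (Y : Ed d), ∀ u ∈ U, lieOf M e Y u ∈ U) → U = ⊤ := by
    obtain ⟨t, ht⟩ := hH.fg
    refine ⟨t, fun U hU hL => ht U hU fun X hX u hu => ?_⟩
    have h1 := hL (crd e X) u hu
    rwa [lieOf_eq hM hAd, hat_crd hAd hX] at h1
  obtain ⟨C, hC⟩ := hkey D (fun i => crd e (b i)) (isSpB_crd hAd hb) V E E' (Lp ℂ 2 ν)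
    (lieOf M e) M.act π ι π' ι' J J' (isMd hS hAd hM hH) (isKm hS hAd hM) hfg hG hG' hJ hJ'
  refine ⟨C, fun f hf => ?_⟩
  rw [hp, hq]
  exact hC f (by rwa [← lapB_eq hAd hM hb])

end Pool.Agent.RG
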